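import Pool.Agent.L0h7.RG.Stm
import Pool.Agent.L0h36.SS.SUBG
import Pool.Agent.L0h26.SS.PUSH

/-! # Torsion-free abelian groups (module KTA of helper7) -/

set_option autoImplicit false

open CategoryTheory

noncomputable section

namespace Pool.Agent.L0h78.RG

open Pool.Agent.Y75.NK Pool.Agent.L0h7.KN Pool.Agent.L0h7.RG Pool.Agent.L0h7.SS

theorem kta (h1 : S_KNR) (h2 : S_RGA) : S_KTA := by
  classical
  intro R _ hR P hcomm hP m x
  have key : ∀ e : Idem (MonoidAlgebra R ((EF (m + 1)).obj P)), kclass R (m + 1) P e = 0 := by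
    intro e
    let T : Finset P := Finset.univ.biUnion fun i => Finset.univ.biUnion fun j =>
      (e.e i j).coeff.support.image (prj (m + 1) P)
    let H : Subgroup P := Subgroup.closure (T : Set P)
    have hs : SuppIn (H : Set P) e := by
      intro i j z hz
      apply Subgroup.subset_closure
      rw [Finset.mem_coe, Finset.mem_biUnion]
      refine ⟨i, Finset.mem_univ _, ?_⟩
      rw [Finset.mem_biUnion]
      exact ⟨j, Finset.mem_univ _, Finset.mem_image_of_mem _ hz⟩
    obtain ⟨y, hy⟩ := Pool.Agent.L0h36.SS.t_SUBG Pool.Agent.L0h26.SS.t_PUSH R (m + 1) P H e hs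
    have hfg : Group.FG H := by
      rw [Group.fg_iff_subgroup_fg]
      exact ⟨T, rfl⟩
    have hreg : Reg (MonoidAlgebra R H) := by
      refine h2 R hR H ?_ ?_ hfg
      · intro a b
        exact Subtype.ext (hcomm a b)
      · intro g k hk hg
        apply Subtype.ext
        apply hP (g : P) k hk
        have := congrArg (Subtype.val) hg
        simpa using this
    have hy0 : y = 0 := h1 (MonoidAlgebra R H) hreg m y
    rw [← hy, hy0, map_zero]
  obtain ⟨e, f, hx⟩ := kclass_generate R (m + 1) P x
  rw [hx, key e, key f, sub_zero]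

theorem t_KTA (h1 : S_KNR) (h2 : S_RGA) (_ : ∀ m, FC (Kneg m)) (_ : S_GRC) : S_KTA := kta h1 h2

end Pool.Agent.L0h78.RG
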